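import Pool.Agent.Q325.MinRank

/-!
# Minimum rank with a constant rank bound

For every fixed `r ≥ 2` (in particular for `r = 4`) it is `∃ℝ`-hard to decide whether a square
matrix, whose entries are rational constants and variables, has rank at most `r` for some real
values of the variables.

Idea: a matrix `[[I_r, X], [Y, W]]` has rank at most `r` iff `W = Y X`. With `r ≥ 2`, each of the
constraints `x = 1`, `x + y = z`, `x y = z` is one entry of such an equation, and all the other
entries of `W` are variables occurring only once.
-/

namespace Pool.Agent.Results.MP_51fc0b_lc.ConstantRankHard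

open Pool.Agent.NPC Pool.Agent.NPC.ER Pool.Agent.NPC.ER.Q325MR

/-- `MinRank_r` is `∃ℝ`-hard for every fixed `r ≥ 2`. -/
theorem result : ∀ r : ℕ, 2 ≤ r → ERHard (lang (MinRank r)) := minRank_hard

end Pool.Agent.Results.MP_51fc0b_lc.ConstantRankHard
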